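import Pool.Agent.helper61.WQU.Main

/-!
Every well-quasi-ordered set is a countable union of better-quasi-ordered sets; moreover the
pieces can be chosen disjoint, and such that each one has an order reflecting map to the tuples
of ordinals of a fixed finite length.
-/

set_option autoImplicit false

namespace Pool.Agent.Results.MP_daee81_lc.OrdinalTuples

open Ordinal

universe u

/-- No infinite strictly descending sequence and no infinite antichain. -/
def Wqo (P : Type u) [Preorder P] : Prop :=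
  (¬ ∃ f : ℕ → P, StrictAnti f) ∧ ∀ A : Set P, IsAntichain (· ≤ ·) A → A.Finite

/-- The maps `f : α → P` with `α` a countable ordinal (the set of the ordinals below `α`). -/
structure Word (P : Type u) where
  α : Ordinal.{0}
  lt : α < ω₁
  f : Set.Iio α → P

/-- `f ≤ g` if there is a strictly increasing `h : α → β` with `f γ ≤ g (h γ)` for all `γ < α`. -/
instance (P : Type u) [Preorder P] : Preorder (Word P) where
  le a b := ∃ h : Set.Iio a.α → Set.Iio b.α, StrictMono h ∧ ∀ γ, a.f γ ≤ b.f (h γ)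
  le_refl _ := ⟨id, strictMono_id, fun _ => le_rfl⟩
  le_trans _ _ _ h1 h2 := by
    obtain ⟨h, hh, hle⟩ := h1
    obtain ⟨k, hk, kle⟩ := h2
    exact ⟨k ∘ h, hk.comp hh, fun γ => (hle γ).trans (kle (h γ))⟩

/-- `P` is a better-quasi-order: the maps from countable ordinals to `P` are w.q.o. -/
def Bqo (P : Type u) [Preorder P] : Prop := Wqo (Word P)

theorem seq_of_wqo {P : Type u} [Preorder P] (h : Wqo P) (g : ℕ → P) :
    ∃ m n, m < n ∧ g m ≤ g n := by
  have h1 : WellFoundedLT P := by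
    constructor
    rw [wellFounded_iff_isEmpty_descending_chain]
    constructor
    rintro ⟨f, hf⟩
    exact h.1 ⟨f, strictAnti_nat_of_succ_lt hf⟩
  exact (wellQuasiOrderedLE_iff.mpr ⟨h1, h.2⟩).wqo g

theorem wqo_of_seq {P : Type u} [Preorder P] (h : ∀ g : ℕ → P, ∃ m n, m < n ∧ g m ≤ g n) :
    Wqo P := by
  have h1 : WellQuasiOrderedLE P := ⟨h⟩
  refine ⟨?_, fun A hA => WellQuasiOrderedLE.finite_of_isAntichain hA⟩
  rintro ⟨f, hf⟩
  obtain ⟨m, n, hmn, hle⟩ := h f
  exact (lt_irrefl _ ((hf hmn).trans_le hle))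

theorem countable_Iio {α : Ordinal.{0}} (h : α < ω₁) : Countable (Set.Iio α) := by
  have h1 : α.card < Cardinal.aleph 1 := by
    rw [← Cardinal.lt_ord, Cardinal.ord_aleph]
    exact h
  have h2 : α.card ≤ Cardinal.aleph0 := by
    rwa [← Cardinal.succ_aleph0, Order.lt_succ_iff] at h1
  rw [← Cardinal.mk_le_aleph0_iff, Cardinal.mk_Iio_ordinal, Cardinal.lift_le_aleph0]
  exact h2

theorem bqo_of_abqo {P : Type u} [Preorder P] (h : H61.BQO.ABQO P) : Bqo P := by
  refine wqo_of_seq fun g => ?_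
  obtain ⟨m, n, hmn, k, hk, hle⟩ := H61.BQO.wqo_seq h (fun n => (g n).α) (fun n => (g n).f)
    (fun n => countable_Iio (g n).lt)
  exact ⟨m, n, hmn, k, hk, hle⟩

/-- Every w.q.o. `P` is the disjoint union of countably many b.q.o.'s `Q n`, and each `Q n` has a
map `φ` to the `d`-tuples of ordinals, `d` finite, with `φ x ≤ φ y → x ≤ y`. -/
theorem result (P : Type u) [Preorder P] (hP : Wqo P) :
    ∃ Q : ℕ → Set P, (∀ x, ∃! n, x ∈ Q n) ∧ ∀ n, Bqo (Q n) ∧
      ∃ (d : ℕ) (φ : Q n → Fin d → Ordinal.{u}), ∀ x y, φ x ≤ φ y → x ≤ y := by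
  obtain ⟨Q, hQ, hφ⟩ := H61.WQU.exists_pieces P (seq_of_wqo hP)
  refine ⟨Q, hQ, fun n => ⟨?_, hφ n⟩⟩
  obtain ⟨d, φ, h⟩ := hφ n
  exact bqo_of_abqo (H61.WQU.abqo_of_reflect d φ h)

end Pool.Agent.Results.MP_daee81_lc.OrdinalTuples
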